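import Pool.Agent.Y926.VR.Final

/-!
# Hereditary structural completeness of structural completions: `Σ₁`-hardness

`num` is a bijective Goedel numbering of the formulas, `Hard P` says that every r.e. set of natural
numbers is many-one reducible to the set of (numbers of) formulas `A` with `P A`, by a computable
function all of whose values contain at most the variables `p₀, …, p₁₇` and axiomatize logics of top
width at most two (`SmallForm`). Hence (last part) the set is not decidable, and its complement is not
even recursively enumerable, inside every class of formulas that contains `SmallForm`.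
-/

set_option autoImplicit false

namespace Pool.Agent.Results.MP_3c2488_lc.SigmaOneHard

open Pool.Agent.W898.VR Pool.Agent.Y926.VR

theorem result :
    Function.Bijective num ∧
    -- the structural completion exists and is unique
    (∀ A : Form, ∃! c, Compl (Cn A) c) ∧
    -- the structural completion of `S_A` is hereditarily structurally complete
    Hard (fun A => ∃ c, Compl (Cn A) c ∧ HStrC c) ∧
    -- the same for the rules in `R` only, whenever `R` contains Visser's rule `V₁`
    (∀ R : Set (Set Form × Form), ({vPrem 0}, vConc 0) ∈ R →
      Hard (fun A => ∃ c, Compl (Cn A) c ∧ RHered R c)) ∧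
    -- every property between `L_A = L` and heredity of the completion of `S_A` for `V₁`
    (∃ L : Form, (∃ c, Compl (Cn L) c ∧ HStrC c) ∧ ∀ P : Form → Prop,
      (∀ A, (∀ a, Cn A ∅ a ↔ Cn L ∅ a) → P A) →
      (∀ A, P A → ∃ c, Compl (Cn A) c ∧ RHered {({vPrem 0}, vConc 0)} c) → Hard P) ∧
    -- consequences of hardness
    (∀ P C : Form → Prop, Hard P → (∀ A, SmallForm A → C A) →
      ¬ ComputablePred (fun k : ℕ => ∃ A : Form, num A = k ∧ C A ∧ P A) ∧
      ¬ REPred (fun k : ℕ => ∃ A : Form, num A = k ∧ C A ∧ ¬ P A)) := by
  refine ⟨num_bij, exists_unique_compl, hard_hstr, hard_rhered,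
    ⟨Lst, hstr_of (fun _ => Iff.rfl), fun P h1 h2 => ?_⟩,
    fun _ C h hC => ⟨h.not_computable C hC, h.not_re C hC⟩⟩
  refine sandwich (fun A h => h1 A fun a => ?_) (fun A h => Or.inr ?_)
  · rw [cn_iff_logic, cn_iff_logic]
    exact h a
  · obtain ⟨c, hc, h3⟩ := h2 A h
    exact ⟨c, hc, (rhered_v1 c).1 h3⟩

end Pool.Agent.Results.MP_3c2488_lc.SigmaOneHard
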